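import Mathlib

namespace Pool.Agent.Results.MP_d93447_an.FewIntersections

open Set Filter Topology

/-- `y` is twice continuously differentiable on `[0,1]`, with first and second derivatives `y'`
and `y''` (one-sided at the endpoints). -/
def IsC2 (y y' y'' : ℝ → ℝ) : Prop :=
  (∀ x ∈ Icc (0 : ℝ) 1, HasDerivWithinAt y (y' x) (Icc 0 1) x) ∧
  (∀ x ∈ Icc (0 : ℝ) 1, HasDerivWithinAt y' (y'' x) (Icc 0 1) x) ∧
  ContinuousOn y'' (Icc 0 1)

/-- The assertion of Q1. -/
def LargeCurvatureForcesIntersections : Prop :=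
  ∀ M N : ℕ, 0 < M → 0 < N → ∃ K : ℝ, ∀ y y' y'' : ℝ → ℝ, IsC2 y y' y'' →
    (∀ x ∈ Icc (0 : ℝ) 1, |y x| ≤ M ∧ |y' x| ≤ M) → K ≤ ∫ x in (0 : ℝ)..1, |y'' x| →
    ∃ a b : ℝ, (N : ℕ∞) ≤ {x | x ∈ Icc (0 : ℝ) 1 ∧ y x = a + b * x}.encard

/-! ### The bump -/

lemma hasDerivAt_max_pow (n : ℕ) (t : ℝ) :
    HasDerivAt (fun t : ℝ => max 0 t ^ (n + 2)) ((n + 2 : ℕ) * max 0 t ^ (n + 1)) t := by
  rcases lt_trichotomy t 0 with h | h | h
  · have h1 : (fun t : ℝ => max 0 t ^ (n + 2)) =ᶠ[𝓝 t] fun _ => 0 := by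
      filter_upwards [isOpen_Iio.mem_nhds h] with s hs
      rw [max_eq_left (le_of_lt hs)]; simp
    have h2 : ((n + 2 : ℕ) : ℝ) * max 0 t ^ (n + 1) = 0 := by
      rw [max_eq_left h.le]; simp
    rw [h2]
    exact (hasDerivAt_const t (0 : ℝ)).congr_of_eventuallyEq h1
  · subst h
    have h2 : ((n + 2 : ℕ) : ℝ) * max 0 (0 : ℝ) ^ (n + 1) = 0 := by simp
    rw [h2, hasDerivAt_iff_isLittleO_nhds_zero]
    simp only [zero_add, smul_zero, sub_zero, max_self]
    have h3 : (fun h : ℝ => max 0 h ^ (n + 2) - 0 ^ (n + 2)) =O[𝓝 0] fun h => h ^ 2 := by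
      refine Asymptotics.IsBigO.of_bound 1 ?_
      filter_upwards [Metric.ball_mem_nhds (0 : ℝ) one_pos] with h hh
      rw [Metric.mem_ball, dist_zero_right, Real.norm_eq_abs] at hh
      have h4 : |max 0 h| ≤ |h| := by
        rcases le_total 0 h with h5 | h5
        · rw [max_eq_right h5]
        · rw [max_eq_left h5, abs_zero]; exact abs_nonneg _
      rw [zero_pow (by omega), sub_zero, one_mul, Real.norm_eq_abs, Real.norm_eq_abs, abs_pow,
        abs_pow, pow_add]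
      have h6 : |max 0 h| ^ n ≤ 1 := pow_le_one₀ (abs_nonneg _) (h4.trans hh.le)
      have h7 : |max 0 h| ^ 2 ≤ |h| ^ 2 := pow_le_pow_left₀ (abs_nonneg _) h4 2
      nlinarith [abs_nonneg h, sq_nonneg (|max 0 h|)]
    exact h3.trans_isLittleO (Asymptotics.isLittleO_pow_id one_lt_two)
  · have h1 : (fun t : ℝ => max 0 t ^ (n + 2)) =ᶠ[𝓝 t] fun t => t ^ (n + 2) := by
      filter_upwards [isOpen_Ioi.mem_nhds h] with s hs
      rw [max_eq_right (le_of_lt hs)]
    rw [max_eq_right h.le]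
    have := (hasDerivAt_pow (n + 2) t).congr_of_eventuallyEq h1
    simpa using this

/-- The bump `(max 0 (1 - u^2))^3` and its first two derivatives. -/
noncomputable def w (u : ℝ) : ℝ := max 0 (1 - u ^ 2) ^ 3
/-- first derivative -/
noncomputable def w' (u : ℝ) : ℝ := -6 * u * max 0 (1 - u ^ 2) ^ 2
/-- second derivative -/
noncomputable def w'' (u : ℝ) : ℝ := -6 * max 0 (1 - u ^ 2) ^ 2 + 24 * u ^ 2 * max 0 (1 - u ^ 2)

lemma hasDerivAt_in (u : ℝ) : HasDerivAt (fun u : ℝ => 1 - u ^ 2) (-(2 * u)) u := by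
  have := (hasDerivAt_pow 2 u).const_sub 1
  simpa using this

lemma hasDerivAt_w (u : ℝ) : HasDerivAt w (w' u) u := by
  have h := (hasDerivAt_max_pow 1 (1 - u ^ 2)).comp u (hasDerivAt_in u)
  have e : ((1 + 2 : ℕ) : ℝ) * max 0 (1 - u ^ 2) ^ (1 + 1) * -(2 * u) = w' u := by
    unfold w'; push_cast; ring
  rw [e] at h
  exact h

lemma hasDerivAt_w' (u : ℝ) : HasDerivAt w' (w'' u) u := by
  have h := (hasDerivAt_max_pow 0 (1 - u ^ 2)).comp u (hasDerivAt_in u)
  have h2 := ((hasDerivAt_id u).const_mul (-6 : ℝ)).mul h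
  refine h2.congr_deriv ?_
  unfold w''
  simp
  ring

lemma continuous_w'' : Continuous w'' := by
  unfold w''; fun_prop

lemma w_zero {u : ℝ} (h : 1 ≤ |u|) : w u = 0 := by
  unfold w
  have : 1 ≤ u ^ 2 := by rw [← sq_abs]; nlinarith
  rw [max_eq_left (by linarith)]; simp

lemma w'_zero {u : ℝ} (h : 1 ≤ |u|) : w' u = 0 := by
  unfold w'
  have : 1 ≤ u ^ 2 := by rw [← sq_abs]; nlinarith
  rw [max_eq_left (by linarith)]; simp

lemma w_eq {u : ℝ} (h : |u| ≤ 1) : w u = (1 - u ^ 2) ^ 3 := by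
  unfold w
  have : u ^ 2 ≤ 1 := by rw [← sq_abs]; nlinarith [abs_nonneg u]
  rw [max_eq_right (by linarith)]

lemma w_nonneg (u : ℝ) : 0 ≤ w u := by unfold w; positivity

lemma w_le (u : ℝ) : w u ≤ 1 := by
  unfold w
  refine pow_le_one₀ (le_max_left _ _) (max_le zero_le_one ?_)
  nlinarith [sq_nonneg u]

lemma w'_le (u : ℝ) : |w' u| ≤ 6 := by
  rcases le_or_gt 1 |u| with h | h
  · rw [w'_zero h]; simp
  · unfold w'
    have h1 : max 0 (1 - u ^ 2) ^ 2 ≤ 1 :=
      pow_le_one₀ (le_max_left _ _) (max_le zero_le_one (by nlinarith [sq_nonneg u]))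
    have h3 : |max 0 (1 - u ^ 2) ^ 2| = max 0 (1 - u ^ 2) ^ 2 := abs_of_nonneg (by positivity)
    have h2 : |(-6 : ℝ)| = 6 := by norm_num
    rw [abs_mul, abs_mul, h3, h2]
    nlinarith [abs_nonneg u, sq_nonneg (max 0 (1 - u ^ 2))]

/-! ### Counting roots -/

lemma encard_roots {p : Polynomial ℝ} (hp : p ≠ 0) {d : ℕ} (hd : p.natDegree ≤ d) :
    {x : ℝ | p.eval x = 0}.encard ≤ d := by
  have h1 : {x : ℝ | p.eval x = 0} = (p.roots.toFinset : Set ℝ) := by
    ext x
    simp [hp]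
  rw [h1, Set.encard_coe_eq_coe_finsetCard]
  have h2 := (Multiset.toFinset_card_le p.roots).trans (p.card_roots')
  exact_mod_cast h2.trans hd

lemma card_quad (a b : ℝ) : {x : ℝ | x ^ 2 = a + b * x}.encard ≤ 2 := by
  have h1 : {x : ℝ | x ^ 2 = a + b * x} = {x : ℝ | (Polynomial.X ^ 2 - Polynomial.C b *
      Polynomial.X - Polynomial.C a : Polynomial ℝ).eval x = 0} := by
    ext x
    simp only [mem_ofPred_eq, Polynomial.eval_sub, Polynomial.eval_pow, Polynomial.eval_X,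
      Polynomial.eval_mul, Polynomial.eval_C]
    constructor <;> intro h <;> linarith
  rw [h1]
  have hc : (Polynomial.X ^ 2 - Polynomial.C b * Polynomial.X - Polynomial.C a :
      Polynomial ℝ).coeff 2 = 1 := by
    simp
  refine encard_roots (fun h => ?_) (d := 2) (by compute_degree)
  rw [h] at hc
  simp at hc

lemma coeff_six (c₆ c₄ c₂ c₁ c₀ : ℝ) : (Polynomial.C c₆ * Polynomial.X ^ 6 +
    Polynomial.C c₄ * Polynomial.X ^ 4 + Polynomial.C c₂ * Polynomial.X ^ 2 +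
    Polynomial.C c₁ * Polynomial.X + Polynomial.C c₀).coeff 6 = c₆ := by
  simp

lemma card_six {δ : ℝ} (hδ : 0 < δ) (c a b : ℝ) :
    {x : ℝ | x ^ 2 + δ * (1 - ((x - c) / δ) ^ 2) ^ 3 = a + b * x}.encard ≤ 6 := by
  set p : Polynomial ℝ := Polynomial.C (-δ) * Polynomial.X ^ 6 +
    Polynomial.C (3 * δ) * Polynomial.X ^ 4 + Polynomial.C (δ ^ 2 - 3 * δ) * Polynomial.X ^ 2 +
    Polynomial.C (2 * c * δ - b * δ) * Polynomial.X + Polynomial.C (c ^ 2 + δ - a - b * c) with hp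
  have hc : p.coeff 6 = -δ := coeff_six _ _ _ _ _
  have hp0 : p ≠ 0 := by
    intro h
    rw [h, Polynomial.coeff_zero] at hc
    linarith
  have h6 := encard_roots hp0 (d := 6) (by rw [hp]; compute_degree)
  have hinj : Set.InjOn (fun x : ℝ => (x - c) / δ)
      {x : ℝ | x ^ 2 + δ * (1 - ((x - c) / δ) ^ 2) ^ 3 = a + b * x} := by
    intro x _ y _ hxy
    simp only at hxy
    rw [div_left_inj' hδ.ne'] at hxy
    linarith
  rw [← hinj.encard_image]
  refine (Set.encard_le_encard ?_).trans h6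
  rintro _ ⟨x, hx, rfl⟩
  simp only [mem_ofPred_eq] at hx ⊢
  obtain ⟨t, ht⟩ : ∃ t, (x - c) / δ = t := ⟨_, rfl⟩
  have hx' : x = c + δ * t := by rw [← ht]; field_simp; ring
  rw [ht] at hx ⊢
  rw [hx'] at hx
  rw [hp]
  simp only [Polynomial.eval_add, Polynomial.eval_mul, Polynomial.eval_C, Polynomial.eval_pow,
    Polynomial.eval_X]
  linear_combination hx

/-! ### Three boxes -/

/-- A line cannot pass near three points of the parabola that are far apart. -/
lemma three_box {g δ : ℝ} (hg : 0 < g) (hδ : 3 * δ < g ^ 2) {s₁ s₂ s₃ e₁ e₂ e₃ a b : ℝ}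
    (h12 : g ≤ |s₁ - s₂|) (h13 : g ≤ |s₁ - s₃|) (h23 : g ≤ |s₂ - s₃|)
    (he1 : |e₁| ≤ δ) (he2 : |e₂| ≤ δ) (he3 : |e₃| ≤ δ)
    (h1 : s₁ ^ 2 + e₁ = a + b * s₁) (h2 : s₂ ^ 2 + e₂ = a + b * s₂)
    (h3 : s₃ ^ 2 + e₃ = a + b * s₃) : False := by
  have hid : (s₁ - s₂) * (s₁ - s₃) * (s₂ - s₃) =
      -(e₁ * (s₂ - s₃)) + e₂ * (s₁ - s₃) - e₃ * (s₁ - s₂) := by
    linear_combination (s₂ - s₃) * h1 - (s₁ - s₃) * h2 + (s₁ - s₂) * h3
  set A := |s₁ - s₂| with hA
  set B := |s₁ - s₃| with hB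
  set C := |s₂ - s₃| with hC
  have habs : A * B * C ≤ δ * (A + B + C) := by
    have e : A * B * C = |(s₁ - s₂) * (s₁ - s₃) * (s₂ - s₃)| := by
      rw [abs_mul, abs_mul]
    rw [e, hid]
    have t1 : |e₁ * (s₂ - s₃)| ≤ δ * C := by
      rw [abs_mul]; exact mul_le_mul_of_nonneg_right he1 (abs_nonneg _)
    have t2 : |e₂ * (s₁ - s₃)| ≤ δ * B := by
      rw [abs_mul]; exact mul_le_mul_of_nonneg_right he2 (abs_nonneg _)
    have t3 : |e₃ * (s₁ - s₂)| ≤ δ * A := by
      rw [abs_mul]; exact mul_le_mul_of_nonneg_right he3 (abs_nonneg _)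
    rw [abs_le] at t1 t2 t3 ⊢
    constructor <;> linarith [t1.1, t1.2, t2.1, t2.2, t3.1, t3.2]
  have hA0 : 0 < A := hg.trans_le h12
  have hB0 : 0 < B := hg.trans_le h13
  have hC0 : 0 < C := hg.trans_le h23
  have q1 : g ^ 2 * A ≤ A * B * C := by
    have : g * g ≤ B * C := mul_le_mul h13 h23 hg.le hB0.le
    nlinarith
  have q2 : g ^ 2 * B ≤ A * B * C := by
    have : g * g ≤ A * C := mul_le_mul h12 h23 hg.le hA0.le
    nlinarith
  have q3 : g ^ 2 * C ≤ A * B * C := by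
    have : g * g ≤ A * B := mul_le_mul h12 h13 hg.le hA0.le
    nlinarith
  have q4 : 3 * δ * (A + B + C) < g ^ 2 * (A + B + C) :=
    mul_lt_mul_of_pos_right hδ (by linarith)
  nlinarith

/-! ### The functions -/

section construction
variable (n : ℕ)

/-- width of the bumps -/
noncomputable def dl : ℝ := 1 / (16 * (n : ℝ) ^ 2)

/-- centres of the bumps -/
noncomputable def ctr (k : ℕ) : ℝ := ((k : ℝ) + 1 / 2) / n

/-- the function -/
noncomputable def Y (x : ℝ) : ℝ :=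
  x ^ 2 + ∑ k ∈ Finset.range n, dl n * w ((x - ctr n k) / dl n)
/-- its first derivative -/
noncomputable def Y' (x : ℝ) : ℝ :=
  2 * x + ∑ k ∈ Finset.range n, w' ((x - ctr n k) / dl n)
/-- its second derivative -/
noncomputable def Y'' (x : ℝ) : ℝ :=
  2 + ∑ k ∈ Finset.range n, w'' ((x - ctr n k) / dl n) / dl n

variable {n : ℕ} (hn : 1 ≤ n)
include hn

lemma n_pos : (0 : ℝ) < n := by exact_mod_cast hn

lemma dl_pos : 0 < dl n := by
  have := n_pos hn
  unfold dl; positivity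

lemma dl_le : dl n ≤ 1 / (16 * n) := by
  have h1 : (1 : ℝ) ≤ n := by exact_mod_cast hn
  unfold dl
  apply one_div_le_one_div_of_le (by linarith)
  nlinarith

lemma dl_le_one : dl n ≤ 1 / 16 := by
  have h1 : (1 : ℝ) ≤ n := by exact_mod_cast hn
  refine (dl_le hn).trans ?_
  apply one_div_le_one_div_of_le (by norm_num)
  linarith

lemma ctr_sep {j k : ℕ} (h : j ≠ k) : 1 / (n : ℝ) ≤ |ctr n j - ctr n k| := by
  have h0 := n_pos hn
  have e : ctr n j - ctr n k = ((j : ℝ) - k) / n := by unfold ctr; ring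
  rw [e, abs_div, abs_of_pos h0]
  apply div_le_div_of_nonneg_right _ h0.le
  have h1 : (1 : ℤ) ≤ |(j : ℤ) - k| := Int.one_le_abs (by omega)
  exact_mod_cast h1

/-- Near the bump `k` only the `k`-th term contributes. -/
lemma sum_single {f : ℝ → ℝ} (hf : ∀ u, 1 ≤ |u| → f u = 0) {k : ℕ} (hk : k < n) {x : ℝ}
    (hx : |x - ctr n k| < dl n) :
    ∑ i ∈ Finset.range n, f ((x - ctr n i) / dl n) = f ((x - ctr n k) / dl n) := by
  refine Finset.sum_eq_single_of_mem k (Finset.mem_range.mpr hk) ?_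
  intro i _ hik
  apply hf
  have h0 := dl_pos hn
  rw [abs_div, abs_of_pos h0, le_div_iff₀ h0, one_mul]
  have h1 := ctr_sep hn hik
  have h2 := dl_le hn
  have h3 : |ctr n i - ctr n k| ≤ |x - ctr n i| + |x - ctr n k| := by
    have := abs_sub_le (ctr n i) x (ctr n k)
    rwa [abs_sub_comm (ctr n i) x] at this
  have h4 : 1 / (16 * (n : ℝ)) = 1 / (n : ℝ) / 16 := by field_simp
  have h5 : 0 < 1 / (n : ℝ) := by have := n_pos hn; positivity
  linarith

omit hn in
/-- Away from all bumps the sum vanishes. -/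
lemma sum_none (hn : 1 ≤ n) {f : ℝ → ℝ} (hf : ∀ u, 1 ≤ |u| → f u = 0) {x : ℝ}
    (hx : ∀ k < n, dl n ≤ |x - ctr n k|) :
    ∑ i ∈ Finset.range n, f ((x - ctr n i) / dl n) = 0 := by
  refine Finset.sum_eq_zero fun i hi => hf _ ?_
  have h0 := dl_pos hn
  rw [abs_div, abs_of_pos h0, le_div_iff₀ h0, one_mul]
  exact hx i (Finset.mem_range.mp hi)

lemma sum_bound {f : ℝ → ℝ} (hf : ∀ u, 1 ≤ |u| → f u = 0) {C : ℝ} (hC0 : 0 ≤ C)
    (hC : ∀ u, |f u| ≤ C) (x : ℝ) :
    |∑ i ∈ Finset.range n, f ((x - ctr n i) / dl n)| ≤ C := by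
  by_cases h : ∃ k < n, |x - ctr n k| < dl n
  · obtain ⟨k, hk, hx⟩ := h
    rw [sum_single hn hf hk hx]
    exact hC _
  · push Not at h
    rw [sum_none hn hf h, abs_zero]
    exact hC0

omit hn in
lemma Y_eq (x : ℝ) : Y n x = x ^ 2 + dl n * ∑ k ∈ Finset.range n, w ((x - ctr n k) / dl n) := by
  unfold Y; rw [Finset.mul_sum]

lemma hasDerivAt_Y (x : ℝ) : HasDerivAt (Y n) (Y' n x) x := by
  have h0 := dl_pos hn
  unfold Y Y'
  refine HasDerivAt.add (by simpa using hasDerivAt_pow 2 x) ?_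
  refine HasDerivAt.fun_sum fun k _ => ?_
  have h1 : HasDerivAt (fun x => (x - ctr n k) / dl n) (1 / dl n) x :=
    ((hasDerivAt_id x).sub_const _).div_const _
  have h2 := ((hasDerivAt_w ((x - ctr n k) / dl n)).comp x h1).const_mul (dl n)
  refine h2.congr_deriv ?_
  field_simp

lemma hasDerivAt_Y' (x : ℝ) : HasDerivAt (Y' n) (Y'' n x) x := by
  have h0 := dl_pos hn
  unfold Y' Y''
  refine HasDerivAt.add (by simpa using (hasDerivAt_id x).const_mul 2) ?_
  refine HasDerivAt.fun_sum fun k _ => ?_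
  have h1 : HasDerivAt (fun x => (x - ctr n k) / dl n) (1 / dl n) x :=
    ((hasDerivAt_id x).sub_const _).div_const _
  have h2 := (hasDerivAt_w' ((x - ctr n k) / dl n)).comp x h1
  refine h2.congr_deriv ?_
  ring

omit hn in
lemma continuous_Y'' : Continuous (Y'' n) := by
  unfold Y''
  have := continuous_w''
  fun_prop

lemma Y_bound {x : ℝ} (hx : x ∈ Icc (0 : ℝ) 1) : |Y n x| ≤ 8 ∧ |Y' n x| ≤ 8 := by
  have h0 := dl_pos hn
  have h1 := dl_le_one hn
  have s1 := sum_bound hn (f := w) (fun u hu => w_zero hu) zero_le_one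
    (fun u => by rw [abs_of_nonneg (w_nonneg u)]; exact w_le u) x
  have s2 := sum_bound hn (f := w') (fun u hu => w'_zero hu) (C := 6) (by norm_num)
    (fun u => w'_le u) x
  obtain ⟨hx0, hx1⟩ := hx
  constructor
  · rw [Y_eq]
    rw [abs_le] at s1 ⊢
    constructor <;> nlinarith [s1.1, s1.2]
  · unfold Y'
    rw [abs_le] at s2 ⊢
    constructor <;> linarith [s2.1, s2.2]

lemma int_block {k : ℕ} (hk : k < n) :
    (1 : ℝ) ≤ ∫ x in ((k : ℝ) / n)..(((k + 1 : ℕ) : ℝ) / n), |Y'' n x| := by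
  have h0 := dl_pos hn
  have h1 := dl_le hn
  have h2 := dl_le_one hn
  have hn0 := n_pos hn
  have h3 : 1 / (16 * (n : ℝ)) = 1 / (n : ℝ) / 16 := by field_simp
  have h4 : 0 < 1 / (n : ℝ) := by positivity
  have hl : (k : ℝ) / n ≤ ctr n k - dl n / 2 := by
    have : ctr n k = (k : ℝ) / n + 1 / (n : ℝ) / 2 := by unfold ctr; field_simp
    rw [this]; linarith
  have hr : ctr n k + dl n / 2 ≤ ((k + 1 : ℕ) : ℝ) / n := by
    have : ((k + 1 : ℕ) : ℝ) / n = ctr n k + 1 / (n : ℝ) / 2 := by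
      unfold ctr; push_cast; field_simp; ring
    rw [this]; linarith
  have habs : Continuous (fun x => |Y'' n x|) := continuous_Y''.abs
  have hmono : (∫ x in (ctr n k - dl n / 2)..(ctr n k + dl n / 2), |Y'' n x|) ≤
      ∫ x in ((k : ℝ) / n)..(((k + 1 : ℕ) : ℝ) / n), |Y'' n x| :=
    intervalIntegral.integral_mono_interval hl (by linarith) hr
      (Eventually.of_forall fun x => abs_nonneg _) (habs.intervalIntegrable _ _)
  have hftc : ∫ x in (ctr n k - dl n / 2)..(ctr n k + dl n / 2), Y'' n x =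
      Y' n (ctr n k + dl n / 2) - Y' n (ctr n k - dl n / 2) :=
    intervalIntegral.integral_eq_sub_of_hasDerivAt (fun x _ => hasDerivAt_Y' hn x)
      (continuous_Y''.intervalIntegrable _ _)
  have hle := intervalIntegral.abs_integral_le_integral_abs (f := Y'' n)
    (μ := MeasureTheory.volume) (a := ctr n k - dl n / 2) (b := ctr n k + dl n / 2) (by linarith)
  have e1 : Y' n (ctr n k + dl n / 2) = 2 * (ctr n k + dl n / 2) + w' (1 / 2) := by
    unfold Y'
    rw [sum_single hn (fun u hu => w'_zero hu) hk (by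
      rw [add_sub_cancel_left, abs_of_pos (by linarith)]; linarith)]
    rw [add_sub_cancel_left]
    congr 2
    field_simp
  have e2 : Y' n (ctr n k - dl n / 2) = 2 * (ctr n k - dl n / 2) + w' (-(1 / 2)) := by
    unfold Y'
    rw [sum_single hn (fun u hu => w'_zero hu) hk (by
      rw [sub_sub_cancel_left, abs_neg, abs_of_pos (by linarith)]; linarith)]
    rw [sub_sub_cancel_left]
    congr 2
    field_simp
  have e3 : w' (1 / 2) = -(27 / 16) := by
    unfold w'
    rw [max_eq_right (by norm_num)]; norm_num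
  have e4 : w' (-(1 / 2)) = 27 / 16 := by
    unfold w'
    rw [max_eq_right (by norm_num)]; norm_num
  rw [hftc, e1, e2, e3, e4] at hle
  have h5 : (1 : ℝ) ≤ |2 * (ctr n k + dl n / 2) + -(27 / 16) -
      (2 * (ctr n k - dl n / 2) + 27 / 16)| := by
    rw [le_abs]; right; linarith
  linarith

lemma int_total : (n : ℝ) ≤ ∫ x in (0 : ℝ)..1, |Y'' n x| := by
  have hn0 := n_pos hn
  have habs : Continuous (fun x => |Y'' n x|) := continuous_Y''.abs
  have h := intervalIntegral.sum_integral_adjacent_intervals (f := fun x => |Y'' n x|)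
    (μ := MeasureTheory.volume) (a := fun k : ℕ => (k : ℝ) / n) (n := n)
    (fun k _ => habs.intervalIntegrable _ _)
  simp only [Nat.cast_zero, zero_div, div_self hn0.ne'] at h
  rw [← h]
  calc (n : ℝ) = ∑ _k ∈ Finset.range n, (1 : ℝ) := by simp
    _ ≤ _ := Finset.sum_le_sum fun k hk => int_block hn (Finset.mem_range.mp hk)

/-- Every line meets the graph in at most `14` points. -/
lemma few (a b : ℝ) : {x | x ∈ Icc (0 : ℝ) 1 ∧ Y n x = a + b * x}.encard ≤ 14 := by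
  have h0 := dl_pos hn
  have hn0 := n_pos hn
  set Z := {x | x ∈ Icc (0 : ℝ) 1 ∧ Y n x = a + b * x} with hZ
  set R0 := {x : ℝ | x ^ 2 = a + b * x} with hR0
  set R : ℕ → Set ℝ := fun k =>
    {x : ℝ | x ^ 2 + dl n * (1 - ((x - ctr n k) / dl n) ^ 2) ^ 3 = a + b * x} with hR
  have hout : ∀ x ∈ Z, (∀ k < n, dl n ≤ |x - ctr n k|) → x ∈ R0 := by
    intro x hx h
    have := hx.2
    rw [Y_eq, sum_none hn (fun u hu => w_zero hu) h, mul_zero, add_zero] at this
    exact this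
  have hin : ∀ x ∈ Z, ∀ k < n, |x - ctr n k| < dl n → x ∈ R k := by
    intro x hx k hk h
    have := hx.2
    rw [Y_eq, sum_single hn (fun u hu => w_zero hu) hk h, w_eq] at this
    · exact this
    · rw [abs_div, abs_of_pos h0, div_le_one h0]; exact h.le
  have hdev : ∀ x : ℝ, |dl n * ∑ k ∈ Finset.range n, w ((x - ctr n k) / dl n)| ≤ dl n := by
    intro x
    rw [abs_mul, abs_of_pos h0]
    have := sum_bound hn (f := w) (fun u hu => w_zero hu) zero_le_one
      (fun u => by rw [abs_of_nonneg (w_nonneg u)]; exact w_le u) x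
    nlinarith
  have hgap : ∀ {i j : ℕ} {x z : ℝ}, i ≠ j → |x - ctr n i| < dl n → |z - ctr n j| < dl n →
      1 / (2 * (n : ℝ)) ≤ |x - z| := by
    intro i j x z hij hx hz
    have h1 := ctr_sep hn hij
    have h2 := dl_le hn
    have h3 : 1 / (16 * (n : ℝ)) = 1 / (n : ℝ) / 16 := by field_simp
    have h4 : 1 / (2 * (n : ℝ)) = 1 / (n : ℝ) / 2 := by field_simp
    have h5 : 0 < 1 / (n : ℝ) := by positivity
    have h6 := abs_sub_le (ctr n i) x (ctr n j)
    have h7 := abs_sub_le x z (ctr n j)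
    rw [abs_sub_comm (ctr n i) x] at h6
    linarith
  have hδg : 3 * dl n < (1 / (2 * (n : ℝ))) ^ 2 := by
    unfold dl
    have : (1 / (2 * (n : ℝ))) ^ 2 = 4 * (1 / (16 * (n : ℝ) ^ 2)) := by field_simp; norm_num
    rw [this]
    have : 0 < 1 / (16 * (n : ℝ) ^ 2) := by positivity
    linarith
  have hthree : ∀ {i j k : ℕ} {x z t : ℝ}, i ≠ j → i ≠ k → j ≠ k → x ∈ Z → z ∈ Z → t ∈ Z →
      |x - ctr n i| < dl n → |z - ctr n j| < dl n → |t - ctr n k| < dl n → False := by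
    intro i j k x z t hij hik hjk hx hz ht h1 h2 h3
    have ex := hx.2
    have ez := hz.2
    have et := ht.2
    rw [Y_eq] at ex ez et
    exact three_box (by positivity) hδg (hgap hij h1 h2) (hgap hik h1 h3) (hgap hjk h2 h3)
      (hdev x) (hdev z) (hdev t) ex ez et
  have key : ∃ i j : ℕ, Z ⊆ R0 ∪ (R i ∪ R j) := by
    by_cases hA : ∃ x ∈ Z, ∃ i < n, |x - ctr n i| < dl n
    · obtain ⟨x, hx, i, hi, hxi⟩ := hA
      by_cases hB : ∃ z ∈ Z, ∃ j < n, j ≠ i ∧ |z - ctr n j| < dl n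
      · obtain ⟨z, hz, j, hj, hji, hzj⟩ := hB
        refine ⟨i, j, fun t ht => ?_⟩
        by_cases hC : ∃ k < n, |t - ctr n k| < dl n
        · obtain ⟨k, hk, htk⟩ := hC
          by_cases hki : k = i
          · subst hki; exact Or.inr (Or.inl (hin t ht k hk htk))
          · by_cases hkj : k = j
            · subst hkj; exact Or.inr (Or.inr (hin t ht k hk htk))
            · exact (hthree (Ne.symm hji) (Ne.symm hki) (Ne.symm hkj) hx hz ht hxi hzj htk).elim
        · push Not at hC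
          exact Or.inl (hout t ht hC)
      · refine ⟨i, i, fun t ht => ?_⟩
        by_cases hC : ∃ k < n, |t - ctr n k| < dl n
        · obtain ⟨k, hk, htk⟩ := hC
          by_cases hki : k = i
          · subst hki; exact Or.inr (Or.inl (hin t ht k hk htk))
          · exact (hB ⟨t, ht, k, hk, hki, htk⟩).elim
        · push Not at hC
          exact Or.inl (hout t ht hC)
    · refine ⟨0, 0, fun t ht => Or.inl (hout t ht fun k hk => ?_)⟩
      by_contra h
      rw [not_le] at h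
      exact hA ⟨t, ht, k, hk, h⟩
  obtain ⟨i, j, hij⟩ := key
  calc Z.encard ≤ (R0 ∪ (R i ∪ R j)).encard := Set.encard_le_encard hij
    _ ≤ R0.encard + (R i ∪ R j).encard := Set.encard_union_le _ _
    _ ≤ R0.encard + ((R i).encard + (R j).encard) := by gcongr; exact Set.encard_union_le _ _
    _ ≤ 2 + (6 + 6) := by
        gcongr
        · exact card_quad a b
        · exact card_six h0 _ a b
        · exact card_six h0 _ a b
    _ = 14 := by norm_num

end construction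

/-- There are `C²` functions on `[0,1]` with `|y|, |y'| ≤ 8` and arbitrarily large `∫ |y''|` whose
graph meets every line in at most `14` points; in particular the assertion of Q1 is false
(for `M = 8`, `N = 15`). -/
theorem result :
    (∀ K : ℝ, ∃ y y' y'' : ℝ → ℝ, IsC2 y y' y'' ∧
      (∀ x ∈ Icc (0 : ℝ) 1, |y x| ≤ 8 ∧ |y' x| ≤ 8) ∧ K ≤ ∫ x in (0 : ℝ)..1, |y'' x| ∧
      ∀ a b : ℝ, {x | x ∈ Icc (0 : ℝ) 1 ∧ y x = a + b * x}.encard ≤ 14) ∧
    ¬ LargeCurvatureForcesIntersections := by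
  have main : ∀ K : ℝ, ∃ y y' y'' : ℝ → ℝ, IsC2 y y' y'' ∧
      (∀ x ∈ Icc (0 : ℝ) 1, |y x| ≤ 8 ∧ |y' x| ≤ 8) ∧ K ≤ ∫ x in (0 : ℝ)..1, |y'' x| ∧
      ∀ a b : ℝ, {x | x ∈ Icc (0 : ℝ) 1 ∧ y x = a + b * x}.encard ≤ 14 := by
    intro K
    obtain ⟨m, hm⟩ := exists_nat_ge K
    have hn : 1 ≤ m + 1 := by omega
    refine ⟨Y (m + 1), Y' (m + 1), Y'' (m + 1), ⟨?_, ?_, ?_⟩, ?_, ?_, ?_⟩
    · intro x _; exact (hasDerivAt_Y hn x).hasDerivWithinAt
    · intro x _; exact (hasDerivAt_Y' hn x).hasDerivWithinAt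
    · exact continuous_Y''.continuousOn
    · intro x hx; exact Y_bound hn hx
    · have := int_total hn
      push_cast at this
      linarith
    · exact few hn
  refine ⟨main, fun h => ?_⟩
  obtain ⟨K, hK⟩ := h 8 15 (by norm_num) (by norm_num)
  obtain ⟨y, y', y'', h1, h2, h3, h4⟩ := main K
  obtain ⟨a, b, hab⟩ := hK y y' y'' h1 (by exact_mod_cast h2) h3
  have := hab.trans (h4 a b)
  exact absurd this (by norm_num)

end Pool.Agent.Results.MP_d93447_an.FewIntersections
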